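import Mathlib
import Pool.Agent.R335.RC.Final

set_option autoImplicit false

/-!
# The threshold `g(n)` has linear order of magnitude

`HasRainbowCycle c k` (in `Pool/Agent/R335/RC/Basic.lean`) says that the edge colouring `c` of
the complete graph on the vertex set `V` contains a rainbow `k`-cycle: `k ≥ 3` and there is an
injective cyclic sequence `f : ZMod k → V` whose `k` edges `s(f i, f (i + 1))` receive pairwise
distinct colours.
-/

namespace Pool.Agent.Results.MP_39b1b7_co.LinearOrder

open R335.RC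

/-- The set of positive integers `M` such that for every `N ≥ 1` and every colouring `c` of `K_N`,
if `c` contains no rainbow `n`-cycle, then `c` contains no rainbow `m`-cycle for any `m ≥ M`. -/
def Thresholds (n : ℕ) : Set ℕ :=
  {M : ℕ | 1 ≤ M ∧ ∀ N : ℕ, 1 ≤ N → ∀ (C : Type) (c : Sym2 (Fin N) → C),
    ¬ HasRainbowCycle c n → ∀ m : ℕ, M ≤ m → ¬ HasRainbowCycle c m}

/-- `g(n)`: the least positive integer with the threshold property. -/
noncomputable def g (n : ℕ) : ℕ := sInf (Thresholds n)

theorem mem_thresholds (n : ℕ) (hn : Odd n) (h3 : 3 ≤ n) : 61 * (n - 2) ∈ Thresholds n := by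
  refine ⟨by omega, fun N' _ C c hc m hm => ?_⟩
  obtain ⟨N, rfl⟩ : ∃ N, n = N + 2 := ⟨n - 2, by omega⟩
  have hodd : N % 2 = 1 := by
    obtain ⟨k, hk⟩ := hn
    omega
  by_cases h1 : 3 ≤ N
  · exact general_case h1 hodd (by omega) hc
  · have h2 : N = 1 := by omega
    subst h2
    exact no_bad le_rfl hc m (by simp) (by omega)

/-- A rainbow cycle uses distinct vertices, so `K_(n-1)` has no rainbow `n`-cycle, while a
colouring of `K_(n-1)` with all edges of different colours has a rainbow `(n-1)`-cycle. -/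
theorem lower (n : ℕ) (h4 : 4 ≤ n) {M : ℕ} (hM : M ∈ Thresholds n) : n ≤ M := by
  by_contra hcon
  have : NeZero (n - 1) := ⟨by omega⟩
  refine hM.2 (n - 1) (by omega) (Sym2 (Fin (n - 1))) id ?_ (n - 1) (by omega) ?_
  · rintro ⟨-, f, hf, -⟩
    have : NeZero n := ⟨by omega⟩
    have h := Fintype.card_le_of_injective f hf
    rw [ZMod.card, Fintype.card_fin] at h
    omega
  · refine ⟨by omega, (ZMod.finEquiv (n - 1)).symm, (ZMod.finEquiv (n - 1)).symm.injective, ?_⟩
    intro i j hij
    simp only [id, Sym2.eq_iff] at hij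
    rcases hij with ⟨h1, -⟩ | ⟨h1, h2⟩
    · exact (ZMod.finEquiv (n - 1)).symm.injective h1
    · exfalso
      have h1' := (ZMod.finEquiv (n - 1)).symm.injective h1
      have h2' := (ZMod.finEquiv (n - 1)).symm.injective h2
      have h5 : (((2 : ℕ) : ZMod (n - 1))) = 0 := by
        push_cast
        have h6 : i + (1 + 1) = i := by
          rw [← add_assoc, h2', ← h1']
        have h7 : (1 + 1 : ZMod (n - 1)) = 0 := by
          have := add_left_cancel (a := i) (b := (1 + 1 : ZMod (n - 1))) (c := 0) (by rw [h6, add_zero])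
          exact this
        rw [← h7]; norm_num
      rw [ZMod.natCast_eq_zero_iff] at h5
      have := Nat.le_of_dvd (by norm_num) h5
      omega

/-- For every odd `n ≥ 5` the threshold `g(n)` is well defined and
`n ≤ g(n) ≤ 61 (n - 2)`. -/
theorem result : ∀ n : ℕ, Odd n → 5 ≤ n →
    IsLeast (Thresholds n) (g n) ∧ n ≤ g n ∧ g n ≤ 61 * (n - 2) := by
  intro n hn h5
  have hmem : g n ∈ Thresholds n := Nat.sInf_mem ⟨_, mem_thresholds n hn (by omega)⟩
  exact ⟨⟨hmem, fun M hM => Nat.sInf_le hM⟩, lower n (by omega) hmem,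
    Nat.sInf_le (mem_thresholds n hn (by omega))⟩

end Pool.Agent.Results.MP_39b1b7_co.LinearOrder
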